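import Mathlib

set_option autoImplicit false

namespace Pool.Agent.MP7c9306

/-- A symmetric table with values in `{1, …, 7}` (nonzero vectors of `F_2^3`), one octal digit
per entry; row `i` is the `i`-th entry of the list, the first digit is column `0`. -/
def rows : List ℕ :=
  [4667315442665732, 6566561125237433, 6674114726313365, 7646453172472357, 3514533613371772,
   1615347374723473, 5143376133243761, 4171631767522753, 4227173675154263, 2562343756142526,
   6234372511422634, 6317724254252717, 5732133242226445, 7433747725674744, 3365776562314456,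
   2357231336475464]

/-- The table entry. -/
def phi (b c : Fin 16) : ℕ := rows.getD b.1 0 / 10 ^ (15 - c.1) % 10

/-- Parity sign `(-1)^{popcount (a &&& b)}` for numbers below `16`. -/
def par (a : ℕ) : ℤ :=
  if (a % 2 + a / 2 % 2 + a / 4 % 2 + a / 8 % 2) % 2 = 0 then 1 else -1

/-- The seven symmetric Hadamard matrices of order `16`. -/
def W7 (l : Fin 7) (b c : Fin 16) : ℤ := par (Nat.land (l.1 + 1) (phi b c))

/-- Symmetric Hadamard matrix of order `16` with constant diagonal. -/
def S16 (b c : Fin 16) : ℤ :=
  (if b.1 / 4 = c.1 / 4 then 1 else -1) * (if b.1 % 4 = c.1 % 4 then 1 else -1)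

/-- Sylvester's Hadamard matrix of order `16`. -/
def H16 (b c : Fin 16) : ℤ := par (Nat.land b.1 c.1)

theorem W7_pm : ∀ l b c, W7 l b c = 1 ∨ W7 l b c = -1 := by
  intro l b c; unfold W7 par; split_ifs <;> simp

theorem S16_pm : ∀ b c, S16 b c = 1 ∨ S16 b c = -1 := by
  intro b c; unfold S16; split_ifs <;> simp

theorem H16_pm : ∀ b c, H16 b c = 1 ∨ H16 b c = -1 := by
  intro b c; unfold H16 par; split_ifs <;> simp

theorem W7_symm : ∀ l b c, W7 l b c = W7 l c b := by decide +kernel

theorem W7_sum : ∀ b c, ∑ l, W7 l b c = -1 := by decide +kernel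

theorem W7_mul : ∀ l b d, ∑ c, W7 l b c * W7 l c d = if b = d then 16 else 0 := by
  decide +kernel

theorem S16_symm : ∀ b c, S16 b c = S16 c b := by decide +kernel

theorem S16_diag : ∀ b, S16 b b = 1 := by decide +kernel

theorem S16_mul : ∀ b d, ∑ c, S16 b c * S16 c d = if b = d then 16 else 0 := by
  decide +kernel

theorem H16_symm : ∀ b c, H16 b c = H16 c b := by decide +kernel

theorem H16_zero : ∀ b, H16 0 b = 1 := by decide +kernel

theorem H16_mul : ∀ b d, ∑ c, H16 b c * H16 c d = if b = d then 16 else 0 := by
  decide +kernel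

end Pool.Agent.MP7c9306
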