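import Mathlib

set_option autoImplicit false

namespace Pool.Agent.MP7c9306

open Matrix Finset

/-- The spectral step: a real symmetric matrix `A` with `A² = s² I + α αᵀ`, `α > 0`, having entries
`0, 1`, zero diagonal, and a vanishing off-diagonal entry, has exactly the three eigenvalues
`θ, s, -s`. -/
theorem charpoly_roots_card {V : Type} [Fintype V] [DecidableEq V] (A : Matrix V V ℝ)
    (hsym : ∀ u v, A u v = A v u) (s : ℝ) (hs : 0 < s) (al : V → ℝ) (hal : ∀ v, 0 < al v)
    (hA : ∀ u v, ∑ w, A u w * A w v = (if u = v then s ^ 2 else 0) + al u * al v)
    (hpos : ∀ u v, 0 ≤ A u v) (u0 v0 : V) (huv : u0 ≠ v0) (h0 : A u0 v0 = 0)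
    (hdiag : ∀ v, A v v = 0) :
    A.charpoly.roots.toFinset.card = 3 := by
  classical
  -- membership in roots means eigenvector
  have hroot : ∀ μ : ℝ, μ ∈ A.charpoly.roots.toFinset ↔
      ∃ x : V → ℝ, x ≠ 0 ∧ ∀ u, ∑ w, A u w * x w = μ * x u := by
    intro μ
    rw [Multiset.mem_toFinset, Polynomial.mem_roots (A.charpoly_monic.ne_zero),
      Polynomial.IsRoot.def, Matrix.eval_charpoly, ← Matrix.exists_mulVec_eq_zero_iff]
    constructor
    · rintro ⟨x, hx, h⟩
      refine ⟨x, hx, fun u => ?_⟩
      have h1 := congrFun h u
      rw [Matrix.sub_mulVec] at h1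
      simp only [Pi.sub_apply, Pi.zero_apply] at h1
      have h2 : ((Matrix.scalar V μ) *ᵥ x) u = μ * x u := by
        simp [Matrix.scalar_apply, Matrix.mulVec_diagonal]
      rw [h2] at h1
      have h3 : (A *ᵥ x) u = ∑ w, A u w * x w := rfl
      rw [h3] at h1
      linarith
    · rintro ⟨x, hx, h⟩
      refine ⟨x, hx, ?_⟩
      funext u
      rw [Matrix.sub_mulVec]
      simp only [Pi.sub_apply, Pi.zero_apply]
      have h2 : ((Matrix.scalar V μ) *ᵥ x) u = μ * x u := by
        simp [Matrix.scalar_apply, Matrix.mulVec_diagonal]
      have h3 : (A *ᵥ x) u = ∑ w, A u w * x w := rfl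
      rw [h2, h3, h u]
      ring
  -- A A x = s² x + (al·x) al
  have hAA : ∀ x : V → ℝ, ∀ u, ∑ w, A u w * (∑ v, A w v * x v) =
      s ^ 2 * x u + (∑ v, al v * x v) * al u := by
    intro x u
    calc ∑ w, A u w * (∑ v, A w v * x v) = ∑ v, (∑ w, A u w * A w v) * x v := by
          simp_rw [Finset.mul_sum, Finset.sum_mul]
          rw [Finset.sum_comm]
          refine Finset.sum_congr rfl fun v _ => Finset.sum_congr rfl fun w _ => by ring
      _ = ∑ v, ((if u = v then s ^ 2 else 0) + al u * al v) * x v := by
          refine Finset.sum_congr rfl fun v _ => by rw [hA]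
      _ = ∑ v, ((if u = v then s ^ 2 * x v else 0) + al u * (al v * x v)) := by
          refine Finset.sum_congr rfl fun v _ => ?_
          split_ifs <;> ring
      _ = _ := by
          rw [Finset.sum_add_distrib, Finset.sum_ite_eq, ← Finset.mul_sum]
          simp only [Finset.mem_univ, if_true]
          ring
  -- beta = A al is proportional to al
  set be : V → ℝ := fun u => ∑ w, A u w * al w with hbe
  have hcomm : ∀ u v, be u * al v = al u * be v := by
    intro u v
    -- consider A^3 computed in two ways
    have h1 : ∑ w, A u w * (∑ z, A w z * A z v) = s ^ 2 * A u v + be u * al v := by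
      calc ∑ w, A u w * (∑ z, A w z * A z v)
          = ∑ w, A u w * ((if w = v then s ^ 2 else 0) + al w * al v) := by
            refine Finset.sum_congr rfl fun w _ => by rw [hA]
        _ = ∑ w, ((if w = v then A u w * s ^ 2 else 0) + (A u w * al w) * al v) := by
            refine Finset.sum_congr rfl fun w _ => ?_
            split_ifs <;> ring
        _ = _ := by
            rw [Finset.sum_add_distrib, Finset.sum_ite_eq', ← Finset.sum_mul]
            simp only [Finset.mem_univ, if_true, hbe]
            ring
    have h2 : ∑ w, A u w * (∑ z, A w z * A z v) = s ^ 2 * A u v + al u * be v := by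
      calc ∑ w, A u w * (∑ z, A w z * A z v)
          = ∑ z, (∑ w, A u w * A w z) * A z v := by
            simp_rw [Finset.mul_sum, Finset.sum_mul]
            rw [Finset.sum_comm]
            refine Finset.sum_congr rfl fun v _ => Finset.sum_congr rfl fun w _ => by ring
        _ = ∑ z, ((if u = z then s ^ 2 else 0) + al u * al z) * A z v := by
            refine Finset.sum_congr rfl fun w _ => by rw [hA]
        _ = ∑ z, ((if u = z then s ^ 2 * A z v else 0) + al u * (A v z * al z)) := by
            refine Finset.sum_congr rfl fun w _ => ?_
            rw [hsym v w]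
            split_ifs <;> ring
        _ = _ := by
            rw [Finset.sum_add_distrib, Finset.sum_ite_eq, ← Finset.mul_sum]
            simp only [Finset.mem_univ, if_true, hbe]
    linarith
  set th : ℝ := be u0 / al u0 with hth
  have hbeth : ∀ u, be u = th * al u := by
    intro u
    have h1 := hcomm u0 u
    have h2 := (hal u0).ne'
    rw [hth]
    field_simp
    linarith
  have hthsq : th ^ 2 = s ^ 2 + ∑ v, al v * al v := by
    have h1 := hAA al u0
    have h2 : ∑ w, A u0 w * (∑ v, A w v * al v) = th * (th * al u0) := by
      calc ∑ w, A u0 w * (∑ v, A w v * al v) = ∑ w, A u0 w * (th * al w) := by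
            refine Finset.sum_congr rfl fun w _ => by
              rw [show (∑ v, A w v * al v) = be w from rfl, hbeth]
        _ = th * be u0 := by
            rw [hbe, Finset.mul_sum]
            refine Finset.sum_congr rfl fun w _ => by ring
        _ = _ := by rw [hbeth]
    rw [h2] at h1
    have h3 : (th ^ 2) * al u0 = (s ^ 2 + ∑ v, al v * al v) * al u0 := by linarith
    exact mul_right_cancel₀ (hal u0).ne' h3
  have halsq : 0 < ∑ v, al v * al v :=
    Finset.sum_pos (fun v _ => mul_pos (hal v) (hal v)) ⟨u0, Finset.mem_univ _⟩
  have hth0 : 0 ≤ th := by
    rw [hth]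
    refine div_nonneg ?_ (hal u0).le
    exact Finset.sum_nonneg fun w _ => mul_nonneg (hpos _ _) (hal w).le
  have hths : s < th := by nlinarith
  have hset : A.charpoly.roots.toFinset = {th, s, -s} := by
    ext μ
    rw [hroot]
    simp only [Finset.mem_insert, Finset.mem_singleton]
    constructor
    · rintro ⟨x, hx, h⟩
      have hax : (∑ v, al v * x v) * (μ - th) = 0 := by
        -- al · A x = μ al·x and = th al·x
        have h1 : ∑ u, al u * (∑ w, A u w * x w) = μ * ∑ v, al v * x v := by
          rw [Finset.mul_sum]
          refine Finset.sum_congr rfl fun u _ => by rw [h u]; ring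
        have h2 : ∑ u, al u * (∑ w, A u w * x w) = th * ∑ v, al v * x v := by
          calc ∑ u, al u * (∑ w, A u w * x w) = ∑ w, (∑ u, A w u * al u) * x w := by
                simp_rw [Finset.mul_sum, Finset.sum_mul]
                rw [Finset.sum_comm]
                refine Finset.sum_congr rfl fun v _ => Finset.sum_congr rfl fun w _ => by
                  rw [hsym w v]; ring
            _ = ∑ w, (th * al w) * x w := by
                refine Finset.sum_congr rfl fun w _ => by
                  rw [show (∑ v, A w v * al v) = be w from rfl, hbeth]
            _ = _ := by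
                rw [Finset.mul_sum]
                refine Finset.sum_congr rfl fun w _ => by ring
        have h3 := h1.symm.trans h2
        linear_combination h3
      rcases mul_eq_zero.mp hax with h0' | h0'
      · right
        obtain ⟨u, hu⟩ : ∃ u, x u ≠ 0 := by
          by_contra hcon
          push Not at hcon
          exact hx (funext hcon)
        have h1 := hAA x u
        rw [h0'] at h1
        have h2 : ∑ w, A u w * (∑ v, A w v * x v) = μ * (μ * x u) := by
          calc ∑ w, A u w * (∑ v, A w v * x v) = ∑ w, A u w * (μ * x w) := by
                refine Finset.sum_congr rfl fun w _ => by rw [h w]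
            _ = μ * ∑ w, A u w * x w := by
                rw [Finset.mul_sum]
                refine Finset.sum_congr rfl fun w _ => by ring
            _ = _ := by rw [h u]
        rw [h2] at h1
        have h3 : (μ - s) * (μ + s) * x u = 0 := by linear_combination h1
        rcases mul_eq_zero.mp h3 with h4 | h4
        · rcases mul_eq_zero.mp h4 with h5 | h5
          · left; linarith
          · right; linarith
        · exact absurd h4 hu
      · left; linarith
    · -- existence
      have key : ∀ r : ℝ, r ^ 2 = s ^ 2 → (∃ u, al v0 * (r * (if u0 = u then 1 else 0) + A u u0) -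
          al u0 * (r * (if v0 = u then 1 else 0) + A u v0) ≠ 0) →
          ∃ x : V → ℝ, x ≠ 0 ∧ ∀ u, ∑ w, A u w * x w = r * x u := by
        rintro r hr ⟨u1, hu1⟩
        refine ⟨fun u => al v0 * (r * (if u0 = u then 1 else 0) + A u u0) -
          al u0 * (r * (if v0 = u then 1 else 0) + A u v0), ?_, ?_⟩
        · intro h
          exact hu1 (congrFun h u1)
        · intro u
          have e1 : ∀ z : V, ∑ w, A u w * (r * (if z = w then 1 else 0) + A w z) =
              r * A u z + (if u = z then s ^ 2 else 0) + al u * al z := by
            intro z
            calc ∑ w, A u w * (r * (if z = w then 1 else 0) + A w z)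
                = ∑ w, ((if z = w then r * A u w else 0) + A u w * A w z) := by
                  refine Finset.sum_congr rfl fun w _ => ?_
                  split_ifs <;> ring
              _ = _ := by
                  rw [Finset.sum_add_distrib, Finset.sum_ite_eq, hA]
                  simp only [Finset.mem_univ, if_true]
                  ring
          calc ∑ w, A u w * (al v0 * (r * (if u0 = w then 1 else 0) + A w u0) -
                al u0 * (r * (if v0 = w then 1 else 0) + A w v0))
              = al v0 * (∑ w, A u w * (r * (if u0 = w then 1 else 0) + A w u0)) -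
                al u0 * (∑ w, A u w * (r * (if v0 = w then 1 else 0) + A w v0)) := by
                rw [Finset.mul_sum, Finset.mul_sum, ← Finset.sum_sub_distrib]
                refine Finset.sum_congr rfl fun w _ => by ring
            _ = _ := by
                rw [e1, e1]
                have c1 : (if u = u0 then s ^ 2 else 0) = r * (r * (if u0 = u then 1 else 0)) := by
                  by_cases hh : u = u0
                  · rw [if_pos hh, if_pos hh.symm]; linarith
                  · rw [if_neg hh, if_neg (fun h => hh h.symm)]; ring
                have c2 : (if u = v0 then s ^ 2 else 0) = r * (r * (if v0 = u then 1 else 0)) := by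
                  by_cases hh : u = v0
                  · rw [if_pos hh, if_pos hh.symm]; linarith
                  · rw [if_neg hh, if_neg (fun h => hh h.symm)]; ring
                rw [c1, c2]
                ring
      rintro (h | h | h)
      · subst h
        refine ⟨al, fun h => (hal u0).ne' (congrFun h u0), fun u => hbeth u⟩
      · subst h
        refine key μ rfl ⟨u0, ?_⟩
        rw [if_pos rfl, if_neg (fun h => huv h.symm), h0, hdiag]
        have := mul_pos (hal v0) hs
        intro hcon
        linarith
      · refine key μ (by rw [h]; ring) ⟨u0, ?_⟩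
        rw [if_pos rfl, if_neg (fun h => huv h.symm), h0, hdiag, h]
        have := mul_pos (hal v0) hs
        intro hcon
        linarith
  rw [hset]
  rw [Finset.card_insert_of_notMem, Finset.card_insert_of_notMem, Finset.card_singleton]
  · simp only [Finset.mem_singleton]
    intro h
    linarith
  · simp only [Finset.mem_insert, Finset.mem_singleton]
    rintro (h | h) <;> linarith

end Pool.Agent.MP7c9306
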