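import Mathlib
import Pool.Agent.Lib.MP_7c9306_co.Graph

set_option autoImplicit false

namespace Pool.Agent.MP7c9306

open Matrix Finset

/-- From a symmetric `±1` matrix `T` with unit diagonal, with
`(J - T)² = 4 (s² I + α αᵀ)`, to a graph (`Fin n` version). -/
theorem graph_fin {n : ℕ} (T : Fin n → Fin n → ℤ) (hT : ∀ u v, T u v = 1 ∨ T u v = -1)
    (hsym : ∀ u v, T u v = T v u) (hdiag : ∀ v, T v v = 1) (s : ℤ) (hs : 0 < s)
    (al : Fin n → ℤ) (hal : ∀ v, 0 < al v)
    (h2 : ∀ u v, ∑ w, (1 - T u w) * (1 - T w v) =
      4 * ((if u = v then s ^ 2 else 0) + al u * al v))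
    (h3 : (Finset.univ.image al).card = 3) (u0 v0 : Fin n) (huv : u0 ≠ v0) (h0 : T u0 v0 = 1) :
    ∃ G : SimpleGraph (Fin n), ∃ inst : DecidableRel G.Adj,
      G.Connected ∧
      (Finset.univ.image (fun v => G.degree v)).card = 3 ∧
      (G.adjMatrix ℝ).charpoly.roots.toFinset.card = 3 := by
  classical
  let G : SimpleGraph (Fin n) :=
    { Adj := fun u v => T u v = -1
      symm := ⟨fun u v h => by rw [hsym v u]; exact h⟩
      loopless := ⟨fun v h => by rw [hdiag v] at h; norm_num at h⟩ }
  have hadj : ∀ u v, G.Adj u v ↔ T u v = -1 := fun u v => Iff.rfl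
  refine ⟨G, fun u v => inferInstanceAs (Decidable (T u v = -1)), ?_, ?_, ?_⟩
  · haveI : Nonempty (Fin n) := ⟨u0⟩
    refine ⟨fun u v => ?_⟩
    by_cases huv' : u = v
    · subst huv'; exact SimpleGraph.Reachable.refl _
    · have h := h2 u v
      rw [if_neg huv'] at h
      have hp : 0 < al u * al v := mul_pos (hal u) (hal v)
      have hne : ∑ w, (1 - T u w) * (1 - T w v) ≠ 0 := by
        rw [h]; linarith
      obtain ⟨w, -, hw⟩ := Finset.exists_ne_zero_of_sum_ne_zero hne
      have h1 : T u w = -1 := by
        rcases hT u w with h' | h'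
        · rw [h'] at hw; simp at hw
        · exact h'
      have h1' : T w v = -1 := by
        rcases hT w v with h' | h'
        · rw [h'] at hw; simp at hw
        · exact h'
      have a1 : G.Adj u w := h1
      have a2 : G.Adj w v := h1'
      exact a1.reachable.trans a2.reachable
  · have hdeg : ∀ v, ((@SimpleGraph.degree _ G v (@SimpleGraph.neighborSetFintype _ G _
        (fun u v => inferInstanceAs (Decidable (T u v = -1))) v) : ℕ) : ℤ) = s ^ 2 + al v ^ 2 := by
      intro v
      letI : DecidableRel G.Adj := fun u v => inferInstanceAs (Decidable (T u v = -1))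
      have h := h2 v v
      rw [if_pos rfl] at h
      have e : ∀ w, (1 - T v w) * (1 - T w v) = 4 * (if G.Adj v w then 1 else 0) := by
        intro w
        rw [hsym w v]
        by_cases hh : G.Adj v w
        · rw [if_pos hh, (hadj v w).mp hh]; norm_num
        · rw [if_neg hh]
          rcases hT v w with h' | h'
          · rw [h']; norm_num
          · exact absurd h' hh
      rw [Finset.sum_congr rfl (fun w _ => e w), ← Finset.mul_sum] at h
      have h' : ∑ w, (if G.Adj v w then (1:ℤ) else 0) = G.degree v := by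
        rw [Finset.sum_boole, ← SimpleGraph.card_neighborFinset_eq_degree,
          SimpleGraph.neighborFinset_eq_filter]
      rw [h'] at h
      linarith
    have himg : (Finset.univ.image (fun v => (@SimpleGraph.degree _ G v (@SimpleGraph.neighborSetFintype _ G _
        (fun u v => inferInstanceAs (Decidable (T u v = -1))) v)))) =
        (Finset.univ.image al).image (fun a => (s ^ 2 + a ^ 2).toNat) := by
      rw [Finset.image_image]
      refine Finset.image_congr fun v _ => ?_
      have := hdeg v
      simp only [Function.comp]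
      omega
    rw [himg, Finset.card_image_of_injOn, h3]
    intro a ha b hb hab
    simp only [Finset.coe_image, Set.mem_image, Finset.coe_univ, Set.mem_univ, true_and] at ha hb
    obtain ⟨x, rfl⟩ := ha
    obtain ⟨y, rfl⟩ := hb
    simp only at hab
    have e1 : 0 ≤ s ^ 2 + al x ^ 2 := by positivity
    have e2 : 0 ≤ s ^ 2 + al y ^ 2 := by positivity
    have e3 : s ^ 2 + al x ^ 2 = s ^ 2 + al y ^ 2 := by omega
    have e4 : al x ^ 2 = al y ^ 2 := by linarith
    have hx := hal x
    have hy := hal y
    have e5 : (al x - al y) * (al x + al y) = 0 := by linear_combination e4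
    rcases mul_eq_zero.mp e5 with h | h <;> linarith
  · letI : DecidableRel G.Adj := fun u v => inferInstanceAs (Decidable (T u v = -1))
    have hent : ∀ u v, (G.adjMatrix ℝ) u v = (1 - (T u v : ℝ)) / 2 := by
      intro u v
      rw [SimpleGraph.adjMatrix_apply]
      by_cases hh : G.Adj u v
      · rw [if_pos hh, (hadj u v).mp hh]; norm_num
      · rw [if_neg hh]
        rcases hT u v with h' | h'
        · rw [h']; norm_num
        · exact absurd h' hh
    refine charpoly_roots_card (G.adjMatrix ℝ) ?_ (s : ℝ) (by exact_mod_cast hs)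
      (fun v => (al v : ℝ)) (fun v => by exact_mod_cast hal v) ?_ ?_ u0 v0 huv ?_ ?_
    · intro u v
      rw [hent, hent, hsym u v]
    · intro u v
      have h := h2 u v
      have h' : (∑ w, (1 - (T u w : ℝ)) * (1 - (T w v : ℝ))) =
          4 * ((if u = v then (s : ℝ) ^ 2 else 0) + (al u : ℝ) * (al v : ℝ)) := by
        have := congrArg (Int.cast : ℤ → ℝ) h
        push_cast at this
        exact this
      calc ∑ w, (G.adjMatrix ℝ) u w * (G.adjMatrix ℝ) w v
          = ∑ w, (1 / 4) * ((1 - (T u w : ℝ)) * (1 - (T w v : ℝ))) := by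
            refine Finset.sum_congr rfl fun w _ => by rw [hent, hent]; ring
        _ = _ := by
            rw [← Finset.mul_sum, h']; ring
    · intro u v
      rw [hent]
      rcases hT u v with h' | h' <;> rw [h'] <;> norm_num
    · rw [hent, h0]; norm_num
    · intro v
      rw [hent, hdiag]; norm_num

/-- The same on an arbitrary finite vertex type. -/
theorem graph_general {V : Type} [Fintype V] [DecidableEq V] (T : V → V → ℤ)
    (hT : ∀ u v, T u v = 1 ∨ T u v = -1)
    (hsym : ∀ u v, T u v = T v u) (hdiag : ∀ v, T v v = 1) (s : ℤ) (hs : 0 < s)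
    (al : V → ℤ) (hal : ∀ v, 0 < al v)
    (h2 : ∀ u v, ∑ w, (1 - T u w) * (1 - T w v) =
      4 * ((if u = v then s ^ 2 else 0) + al u * al v))
    (h3 : (Finset.univ.image al).card = 3) (u0 v0 : V) (huv : u0 ≠ v0) (h0 : T u0 v0 = 1) :
    ∃ G : SimpleGraph (Fin (Fintype.card V)), ∃ inst : DecidableRel G.Adj,
      G.Connected ∧
      (Finset.univ.image (fun v => G.degree v)).card = 3 ∧
      (G.adjMatrix ℝ).charpoly.roots.toFinset.card = 3 := by
  classical
  let e : V ≃ Fin (Fintype.card V) := Fintype.equivFin V
  refine graph_fin (fun u v => T (e.symm u) (e.symm v)) (fun u v => hT _ _) (fun u v => hsym _ _)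
    (fun v => hdiag _) s hs (fun v => al (e.symm v)) (fun v => hal _) ?_ ?_ (e u0) (e v0)
    (fun h => huv (e.injective h)) (by simpa using h0)
  · intro u v
    have h := h2 (e.symm u) (e.symm v)
    have h' : ∑ w, (1 - T (e.symm u) (e.symm w)) * (1 - T (e.symm w) (e.symm v)) =
        ∑ w, (1 - T (e.symm u) w) * (1 - T w (e.symm v)) :=
      Equiv.sum_comp e.symm (fun w => (1 - T (e.symm u) w) * (1 - T w (e.symm v)))
    rw [h', h]
    simp only [e.symm.injective.eq_iff]
  · rw [← h3]
    congr 1
    ext a
    simp only [Finset.mem_image, Finset.mem_univ, true_and]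
    constructor
    · rintro ⟨x, hx⟩; exact ⟨e.symm x, hx⟩
    · rintro ⟨x, hx⟩; exact ⟨e x, by simpa using hx⟩

end Pool.Agent.MP7c9306
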