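import Mathlib
import Pool.Agent.Lib.MP_7c9306_co.Graph2

set_option autoImplicit false

namespace Pool.Agent.MP7c9306

open Matrix Finset

section core

variable {B P : Type} [Fintype B] [DecidableEq B] [Fintype P] [DecidableEq P]

/-- The sign attached to a block. -/
def sg (c1 b : B) : ℤ := if b = c1 then -1 else 1

/-- The big `±1` matrix. -/
def bigT (T1 : B → P → B → P → ℤ) (h : B → B → ℤ) (u0 c1 : B) :
    ((B × P) ⊕ {u : B // u ≠ u0}) → ((B × P) ⊕ {u : B // u ≠ u0}) → ℤ
  | .inl (b, x), .inl (c, y) => sg c1 b * sg c1 c * T1 b x c y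
  | .inl (b, _), .inr u => h u.1 b
  | .inr u, .inl (b, _) => h u.1 b
  | .inr _, .inr _ => 1

/-- The vector `α`. -/
def bigA (P : Type) (g : ℤ) (u0 c1 : B) : ((B × P) ⊕ {u : B // u ≠ u0}) → ℤ
  | .inl (b, _) => if b = c1 then g * (g ^ 2 - 1) else g * (g ^ 2 + 1)
  | .inr _ => g ^ 3

theorem sg_sq (c1 b : B) : sg c1 b * sg c1 b = 1 := by
  unfold sg; split_ifs <;> norm_num

theorem sum_ne (u0 : B) (f : B → ℤ) : ∑ u : {u : B // u ≠ u0}, f u.1 = ∑ u, f u - f u0 := by
  have h1 : ∑ u : {u : B // u ≠ u0}, f u.1 = ∑ u ∈ Finset.univ.filter (fun u => u ≠ u0), f u :=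
    (Finset.sum_subtype _ (by simp) f).symm
  rw [h1, Finset.filter_ne', Finset.sum_erase_eq_sub (Finset.mem_univ _)]

theorem sum_expand {V : Type} [Fintype V] (a b : V → ℤ) :
    ∑ w, (1 - a w) * (1 - b w) = (Fintype.card V : ℤ) - ∑ w, a w - ∑ w, b w + ∑ w, a w * b w := by
  have : ∀ w, (1 - a w) * (1 - b w) = 1 - a w - b w + a w * b w := fun w => by ring
  rw [Finset.sum_congr rfl (fun w _ => this w), Finset.sum_add_distrib, Finset.sum_sub_distrib,
    Finset.sum_sub_distrib]
  simp

theorem core (g : ℤ) (hg : 2 ≤ g) (T1 : B → P → B → P → ℤ)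
    (hT1 : ∀ b x c y, T1 b x c y = 1 ∨ T1 b x c y = -1)
    (hsym : ∀ b x c y, T1 b x c y = T1 c y b x)
    (hdiag : ∀ b x, T1 b x b x = 1)
    (hrow : ∀ b x c, ∑ y, T1 b x c y = - g ^ 2)
    (hsq : ∀ b x d z, ∑ c, ∑ y, T1 b x c y * T1 c y d z =
      (if b = d ∧ x = z then 4 * g ^ 6 else 0) + 4 * g ^ 2 - (if b = d then 4 * g ^ 2 else 0))
    (h : B → B → ℤ) (hh : ∀ u b, h u b = 1 ∨ h u b = -1) (u0 c1 : B)
    (hu0 : ∀ b, h u0 b = 1) (hc1 : ∀ u, h u c1 = 1)
    (hhr : ∀ u v, ∑ b, h u b * h v b = if u = v then 4 * g ^ 2 else 0)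
    (hhc : ∀ b c, ∑ u, h u b * h u c = if b = c then 4 * g ^ 2 else 0)
    (hcB : (Fintype.card B : ℤ) = 4 * g ^ 2) (hcP : (Fintype.card P : ℤ) = g ^ 4) :
    ∃ G : SimpleGraph (Fin (Fintype.card ((B × P) ⊕ {u : B // u ≠ u0}))),
      ∃ inst : DecidableRel G.Adj,
      G.Connected ∧
      (Finset.univ.image (fun v => G.degree v)).card = 3 ∧
      (G.adjMatrix ℝ).charpoly.roots.toFinset.card = 3 := by
  classical
  have hPne : Nonempty P := by
    rw [← Fintype.card_pos_iff]
    have : 0 < g ^ 4 := by positivity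
    exact_mod_cast (hcP ▸ this : (0:ℤ) < Fintype.card P)
  obtain ⟨x0⟩ := hPne
  have hcard : (Fintype.card ((B × P) ⊕ {u : B // u ≠ u0}) : ℤ) = 4 * g ^ 6 + 4 * g ^ 2 - 1 := by
    rw [Fintype.card_sum, Fintype.card_prod]
    have e1 : (Fintype.card {u : B // u ≠ u0} : ℤ) = 4 * g ^ 2 - 1 := by
      have := sum_ne u0 (fun _ => (1 : ℤ))
      simp only [Finset.sum_const, Finset.card_univ, nsmul_eq_mul, mul_one] at this
      rw [this, hcB]
    push_cast
    rw [e1, hcB, hcP]
    ring
  -- sums of signs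
  have hsgsum : ∑ c, sg c1 c = 4 * g ^ 2 - 2 := by
    have e : ∀ c, sg c1 c = 1 + (if c = c1 then (-2) else 0) := by
      intro c; unfold sg; split_ifs <;> norm_num
    rw [Finset.sum_congr rfl (fun c _ => e c), Finset.sum_add_distrib, Finset.sum_ite_eq']
    simp only [Finset.mem_univ, if_true, Finset.sum_const, Finset.card_univ, nsmul_eq_mul, mul_one,
      hcB]
    ring
  have hrs : ∀ u, ∑ b, h u b = if u = u0 then 4 * g ^ 2 else 0 := by
    intro u
    rw [← hhr u u0]
    refine Finset.sum_congr rfl fun b _ => by rw [hu0, mul_one]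
  have hcs : ∀ b, ∑ u, h u b = if b = c1 then 4 * g ^ 2 else 0 := by
    intro b
    rw [← hhc b c1]
    refine Finset.sum_congr rfl fun u _ => by rw [hc1, mul_one]
  have hsgh : ∀ u, u ≠ u0 → ∑ c, sg c1 c * h u c = -2 := by
    intro u hu
    have e : ∀ c, sg c1 c * h u c = h u c + (if c = c1 then (-2) * h u c else 0) := by
      intro c; unfold sg; split_ifs <;> ring
    rw [Finset.sum_congr rfl (fun c _ => e c), Finset.sum_add_distrib, Finset.sum_ite_eq', hrs,
      if_neg hu]
    simp only [Finset.mem_univ, if_true, hc1]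
    ring
  -- row sums of bigT
  have hr1 : ∀ b x, ∑ w, bigT T1 h u0 c1 (.inl (b, x)) w =
      sg c1 b * (-(g ^ 2)) * (4 * g ^ 2 - 2) + (if b = c1 then 4 * g ^ 2 else 0) - 1 := by
    intro b x
    rw [Fintype.sum_sum_type, Fintype.sum_prod_type]
    have e1 : ∀ c, ∑ y, bigT T1 h u0 c1 (.inl (b, x)) (.inl (c, y)) =
        sg c1 b * (-(g ^ 2)) * sg c1 c := by
      intro c
      simp only [bigT]
      rw [← Finset.mul_sum, hrow]
      ring
    rw [Finset.sum_congr rfl (fun c _ => e1 c), ← Finset.mul_sum, hsgsum]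
    have e2 : ∑ u : {u : B // u ≠ u0}, bigT T1 h u0 c1 (.inl (b, x)) (.inr u) =
        (if b = c1 then 4 * g ^ 2 else 0) - 1 := by
      simp only [bigT]
      rw [sum_ne u0 (fun u => h u b), hcs, hu0]
    rw [e2]
    ring
  have hr2 : ∀ u, ∑ w, bigT T1 h u0 c1 (.inr u) w = 4 * g ^ 2 - 1 := by
    intro u
    rw [Fintype.sum_sum_type, Fintype.sum_prod_type]
    have e1 : ∀ c, ∑ y : P, bigT T1 h u0 c1 (.inr u) (.inl (c, y)) = g ^ 4 * h u.1 c := by
      intro c
      simp only [bigT]
      rw [Finset.sum_const, Finset.card_univ, nsmul_eq_mul, hcP]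
    rw [Finset.sum_congr rfl (fun c _ => e1 c), ← Finset.mul_sum, hrs, if_neg u.2]
    simp only [bigT]
    rw [sum_ne u0 (fun _ => (1 : ℤ))]
    simp [hcB]
  -- symmetric
  have hTsym : ∀ u v, bigT T1 h u0 c1 u v = bigT T1 h u0 c1 v u := by
    rintro (⟨b, x⟩ | u) (⟨c, y⟩ | v)
    · simp only [bigT]; rw [hsym b x c y]; ring
    · rfl
    · rfl
    · rfl
  -- products
  have hVV : ∀ b x d z, ∑ w, bigT T1 h u0 c1 (.inl (b, x)) w * bigT T1 h u0 c1 w (.inl (d, z)) =
      (if b = d ∧ x = z then 4 * g ^ 6 else 0) + 4 * g ^ 2 * (sg c1 b * sg c1 d) - 1 := by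
    intro b x d z
    rw [Fintype.sum_sum_type, Fintype.sum_prod_type]
    have e1 : ∀ c, ∑ y, bigT T1 h u0 c1 (.inl (b, x)) (.inl (c, y)) *
        bigT T1 h u0 c1 (.inl (c, y)) (.inl (d, z)) =
        (sg c1 b * sg c1 d) * ∑ y, T1 b x c y * T1 c y d z := by
      intro c
      rw [Finset.mul_sum]
      refine Finset.sum_congr rfl fun y _ => ?_
      simp only [bigT]
      have := sg_sq c1 c
      calc _ = (sg c1 b * sg c1 d) * (T1 b x c y * T1 c y d z) * (sg c1 c * sg c1 c) := by ring
        _ = _ := by rw [this, mul_one]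
    rw [Finset.sum_congr rfl (fun c _ => e1 c), ← Finset.mul_sum, hsq]
    have e2 : ∑ u : {u : B // u ≠ u0}, bigT T1 h u0 c1 (.inl (b, x)) (.inr u) *
        bigT T1 h u0 c1 (.inr u) (.inl (d, z)) = (if b = d then 4 * g ^ 2 else 0) - 1 := by
      simp only [bigT]
      rw [sum_ne u0 (fun u => h u b * h u d), hhc, hu0, hu0]
      ring
    rw [e2]
    by_cases hbd : b = d
    · subst hbd
      have := sg_sq c1 b
      rw [this]
      simp only [true_and, if_true]
      ring
    · rw [if_neg hbd, if_neg (fun h => hbd h.1)]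
      ring
  have hVY : ∀ b x (u : {u : B // u ≠ u0}),
      ∑ w, bigT T1 h u0 c1 (.inl (b, x)) w * bigT T1 h u0 c1 w (.inr u) =
      2 * g ^ 2 * sg c1 b + (if b = c1 then 4 * g ^ 2 else 0) - 1 := by
    intro b x u
    rw [Fintype.sum_sum_type, Fintype.sum_prod_type]
    have e1 : ∀ c, ∑ y, bigT T1 h u0 c1 (.inl (b, x)) (.inl (c, y)) *
        bigT T1 h u0 c1 (.inl (c, y)) (.inr u) =
        (sg c1 b * (-(g ^ 2))) * (sg c1 c * h u.1 c) := by
      intro c
      simp only [bigT]
      rw [← Finset.sum_mul, ← Finset.mul_sum, hrow]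
      ring
    rw [Finset.sum_congr rfl (fun c _ => e1 c), ← Finset.mul_sum, hsgh u.1 u.2]
    have e2 : ∑ v : {u : B // u ≠ u0}, bigT T1 h u0 c1 (.inl (b, x)) (.inr v) *
        bigT T1 h u0 c1 (.inr v) (.inr u) = (if b = c1 then 4 * g ^ 2 else 0) - 1 := by
      simp only [bigT, mul_one]
      rw [sum_ne u0 (fun u => h u b), hcs, hu0]
    rw [e2]
    ring
  have hYY : ∀ u v : {u : B // u ≠ u0},
      ∑ w, bigT T1 h u0 c1 (.inr u) w * bigT T1 h u0 c1 w (.inr v) =
      (if u = v then 4 * g ^ 6 else 0) + 4 * g ^ 2 - 1 := by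
    intro u v
    rw [Fintype.sum_sum_type, Fintype.sum_prod_type]
    have e1 : ∀ c, ∑ y : P, bigT T1 h u0 c1 (.inr u) (.inl (c, y)) *
        bigT T1 h u0 c1 (.inl (c, y)) (.inr v) = g ^ 4 * (h u.1 c * h v.1 c) := by
      intro c
      simp only [bigT]
      rw [Finset.sum_const, Finset.card_univ, nsmul_eq_mul, hcP]
    rw [Finset.sum_congr rfl (fun c _ => e1 c), ← Finset.mul_sum, hhr]
    simp only [bigT, mul_one]
    rw [sum_ne u0 (fun _ => (1 : ℤ))]
    by_cases huv : u = v
    · rw [if_pos huv, if_pos (by rw [huv])]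
      simp [hcB]
      ring
    · rw [if_neg huv, if_neg (fun h => huv (Subtype.ext h))]
      simp [hcB]
  have hBcard : 2 < Fintype.card B := by
    have : (2:ℤ) < 4 * g ^ 2 := by nlinarith
    exact_mod_cast (hcB ▸ this : (2:ℤ) < Fintype.card B)
  -- elements
  obtain ⟨b1, hb1⟩ : ∃ b1 : B, b1 ≠ c1 := by
    haveI : Nontrivial B := Fintype.one_lt_card_iff_nontrivial.mp (by omega)
    exact exists_ne c1
  have hY : ∃ u v : {u : B // u ≠ u0}, u ≠ v := by
    have e1 : 1 < Fintype.card {u : B // u ≠ u0} := by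
      have : Fintype.card {u : B // u ≠ u0} = Fintype.card B - 1 := by
        have := Fintype.card_subtype_compl (fun u : B => u = u0)
        simp only [Fintype.card_unique] at this
        exact this
      omega
    exact Fintype.one_lt_card_iff.mp e1
  obtain ⟨u1, v1, huv1⟩ := hY
  refine graph_general (bigT T1 h u0 c1) ?_ hTsym ?_ (g ^ 3) (by positivity)
    (bigA P g u0 c1) ?_ ?_ ?_ (.inr u1) (.inr v1) (fun h => huv1 (Sum.inr_injective h)) rfl
  · rintro (⟨b, x⟩ | u) (⟨c, y⟩ | v)
    · simp only [bigT]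
      rcases hT1 b x c y with h' | h' <;> rw [h'] <;> unfold sg <;> split_ifs <;> norm_num
    · exact hh _ _
    · exact hh _ _
    · left; rfl
  · rintro (⟨b, x⟩ | u)
    · simp only [bigT]
      rw [hdiag, sg_sq, mul_one]
    · rfl
  · rintro (⟨b, x⟩ | u)
    · simp only [bigA]
      split_ifs
      · have : 0 < g ^ 2 - 1 := by nlinarith
        positivity
      · positivity
    · simp only [bigA]; positivity
  · intro u v
    have hexp := sum_expand (fun w => bigT T1 h u0 c1 u w) (fun w => bigT T1 h u0 c1 w v)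
    rw [hexp, hcard]
    have hcol : ∑ w, bigT T1 h u0 c1 w v = ∑ w, bigT T1 h u0 c1 v w :=
      Finset.sum_congr rfl fun w _ => hTsym w v
    rw [hcol]
    rcases u with ⟨b, x⟩ | u <;> rcases v with ⟨c, y⟩ | v
    · rw [hr1, hr1, hVV]
      simp only [bigA]
      have e0 : ((Sum.inl (b, x) : (B × P) ⊕ {u : B // u ≠ u0}) = Sum.inl (c, y)) ↔
          (b = c ∧ x = y) := by
        constructor
        · intro h; have := Sum.inl_injective h; simpa using this
        · rintro ⟨rfl, rfl⟩; rfl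
      by_cases hbc : b = c ∧ x = y
      · rw [if_pos hbc, if_pos (e0.mpr hbc)]
        obtain ⟨rfl, rfl⟩ := hbc
        unfold sg
        split_ifs <;> ring
      · rw [if_neg hbc, if_neg (fun h => hbc (e0.mp h))]
        unfold sg
        split_ifs <;> ring
    · rw [hr1, hr2, hVY]
      have e0 : (Sum.inl (b, x) : (B × P) ⊕ {u : B // u ≠ u0}) ≠ Sum.inr v := by simp
      simp only [bigA]
      rw [if_neg e0]
      unfold sg
      split_ifs <;> ring
    · rw [hr1, hr2]
      have e1 : ∑ w, bigT T1 h u0 c1 (.inr u) w * bigT T1 h u0 c1 w (.inl (c, y)) =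
          ∑ w, bigT T1 h u0 c1 (.inl (c, y)) w * bigT T1 h u0 c1 w (.inr u) := by
        refine Finset.sum_congr rfl fun w _ => ?_
        rw [hTsym (.inr u) w, hTsym w (.inl (c, y))]
        ring
      rw [e1, hVY]
      have e0 : (Sum.inr u : (B × P) ⊕ {u : B // u ≠ u0}) ≠ Sum.inl (c, y) := by simp
      simp only [bigA]
      rw [if_neg e0]
      unfold sg
      split_ifs <;> ring
    · rw [hr2, hr2, hYY]
      simp only [bigA]
      by_cases huv : u = v
      · rw [if_pos huv, if_pos (by rw [huv])]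
        ring
      · rw [if_neg huv, if_neg (fun h => huv (Sum.inr_injective h))]
        ring
  · have : (Finset.univ.image (bigA P g u0 c1)) = {g * (g ^ 2 - 1), g * (g ^ 2 + 1), g ^ 3} := by
      ext a
      simp only [Finset.mem_image, Finset.mem_univ, true_and, Finset.mem_insert,
        Finset.mem_singleton]
      constructor
      · rintro ⟨(⟨b, x⟩ | u), rfl⟩
        · simp only [bigA]
          split_ifs
          · left; rfl
          · right; left; rfl
        · right; right; rfl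
      · rintro (h' | h' | h')
        · exact ⟨.inl (c1, x0), by simp [bigA, h']⟩
        · exact ⟨.inl (b1, x0), by simp [bigA, h', hb1]⟩
        · exact ⟨.inr u1, by simp [bigA, h']⟩
    rw [this, Finset.card_insert_of_notMem, Finset.card_insert_of_notMem, Finset.card_singleton]
    · simp only [Finset.mem_singleton]
      intro h'
      have : g = 0 := by linear_combination h'
      omega
    · simp only [Finset.mem_insert, Finset.mem_singleton]
      rintro (h' | h')
      · have : 2 * g = 0 := by linear_combination (-1) * h'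
        omega
      · have : g = 0 := by linear_combination (-1) * h'
        omega

end core

end Pool.Agent.MP7c9306
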