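import Mathlib
import Pool.Agent.Lib.MP_7c9306_co.Core

set_option autoImplicit false

namespace Pool.Agent.MP7c9306

open Finset

section spread

variable {F : Type} [Field F] [Fintype F] [DecidableEq F]

/-- Indicator functions of the lines through the origin of `F × F`. -/
def kap : Option F → F × F → ℤ
  | none, w => if w.1 = 0 then 1 else 0
  | some m, w => if w.2 = m * w.1 then 1 else 0

omit [Fintype F] in
theorem kap_zero (i : Option F) : kap i (0, 0) = 1 := by
  rcases i with _ | m <;> simp [kap]

/-- Sum of all the line indicators. -/
theorem kap_sum (w : F × F) : ∑ i, kap i w = 1 + (if w = 0 then (Fintype.card F : ℤ) else 0) := by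
  rw [Fintype.sum_option]
  by_cases hw : w = 0
  · subst hw
    simp [kap]
  · rw [if_neg hw]
    by_cases h1 : w.1 = 0
    · have h2 : w.2 ≠ 0 := fun h => hw (Prod.ext h1 h)
      simp [kap, h1, h2]
    · have : ∀ m : F, kap (some m) w = if w.2 / w.1 = m then 1 else 0 := by
        intro m
        simp only [kap]
        congr 1
        rw [div_eq_iff h1]
      rw [Finset.sum_congr rfl (fun m _ => this m), Finset.sum_ite_eq]
      simp [kap, h1]

theorem kap_total (i : Option F) : ∑ w, kap i w = (Fintype.card F : ℤ) := by
  rcases i with _ | m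
  · rw [Fintype.sum_prod_type]
    have e : ∀ a : F, ∑ b : F, kap none (a, b) = if a = 0 then (Fintype.card F : ℤ) else 0 := by
      intro a
      simp only [kap, Finset.sum_const, Finset.card_univ, nsmul_eq_mul]
      split_ifs <;> simp
    rw [Finset.sum_congr rfl (fun a _ => e a), Finset.sum_ite_eq']
    simp
  · rw [Fintype.sum_prod_type]
    simp [kap]

theorem kap_conv (i j : Option F) (w : F × F) :
    ∑ y, kap i y * kap j (y + w) = if i = j then (Fintype.card F : ℤ) * kap i w else 1 := by
  rw [Fintype.sum_prod_type]
  rcases i with _ | m <;> rcases j with _ | m'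
  · have e : ∀ a : F, ∑ b : F, kap none (a, b) * kap none ((a, b) + w) =
        if a = 0 then (Fintype.card F : ℤ) * kap none w else 0 := by
      intro a
      simp only [kap, Prod.fst_add, Finset.sum_const, Finset.card_univ, nsmul_eq_mul]
      by_cases ha : a = 0
      · subst ha; simp
      · simp [ha]
    rw [Finset.sum_congr rfl (fun a _ => e a), Finset.sum_ite_eq']
    simp
  · have e : ∀ a : F, ∑ b : F, kap none (a, b) * kap (some m') ((a, b) + w) =
        if a = 0 then 1 else 0 := by
      intro a
      by_cases ha : a = 0
      · subst ha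
        have : ∀ b : F, kap none ((0 : F), b) * kap (some m') ((0, b) + w) =
            if b = m' * w.1 - w.2 then 1 else 0 := by
          intro b
          simp only [kap, Prod.fst_add, Prod.snd_add, zero_add, if_true, one_mul]
          congr 1
          rw [eq_sub_iff_add_eq]
        rw [Finset.sum_congr rfl (fun b _ => this b), Finset.sum_ite_eq']
        simp
      · simp [kap, ha]
    rw [Finset.sum_congr rfl (fun a _ => e a), Finset.sum_ite_eq']
    simp
  · have e : ∀ a : F, ∑ b : F, kap (some m) (a, b) * kap none ((a, b) + w) =
        if a = - w.1 then 1 else 0 := by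
      intro a
      have e' : ∑ b : F, kap (some m) (a, b) = 1 := by
        simp [kap]
      have e2 : ∀ b : F, kap none ((a, b) + w) = if a = - w.1 then 1 else 0 := by
        intro b
        simp only [kap, Prod.fst_add]
        by_cases h : a = - w.1
        · rw [if_pos h, if_pos (by rw [h]; ring)]
        · rw [if_neg h, if_neg (fun h' => h (by linear_combination h'))]
      rw [Finset.sum_congr rfl (fun b _ => by rw [e2 b]), ← Finset.sum_mul, e', one_mul]
    rw [Finset.sum_congr rfl (fun a _ => e a), Finset.sum_ite_eq']
    simp
  · have e : ∀ a : F, ∑ b : F, kap (some m) (a, b) * kap (some m') ((a, b) + w) =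
        if (m - m') * a = m' * w.1 - w.2 then 1 else 0 := by
      intro a
      have : ∀ b : F, kap (some m) (a, b) * kap (some m') ((a, b) + w) =
          if b = m * a then (if (m - m') * a = m' * w.1 - w.2 then 1 else 0) else 0 := by
        intro b
        by_cases hb : b = m * a
        · subst hb
          simp only [kap, Prod.fst_add, Prod.snd_add, if_true, one_mul]
          congr 1
          apply propext
          constructor
          · intro h; linear_combination h
          · intro h; linear_combination h
        · simp [kap, hb]
      rw [Finset.sum_congr rfl (fun b _ => this b), Finset.sum_ite_eq']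
      simp
    rw [Finset.sum_congr rfl (fun a _ => e a)]
    by_cases hm : m = m'
    · subst hm
      simp only [sub_self, zero_mul, if_true, kap, Finset.sum_const, Finset.card_univ,
        nsmul_eq_mul]
      congr 1
      by_cases h : w.2 = m * w.1
      · rw [if_pos h, if_pos (by rw [h]; ring)]
      · rw [if_neg h, if_neg (fun h' => h (by linear_combination h'))]
    · have hne : m - m' ≠ 0 := sub_ne_zero.mpr hm
      have : ∀ a : F, (if (m - m') * a = m' * w.1 - w.2 then (1:ℤ) else 0) =
          if a = (m' * w.1 - w.2) / (m - m') then 1 else 0 := by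
        intro a
        congr 1
        rw [eq_div_iff hne, mul_comm a]
      rw [Finset.sum_congr rfl (fun a _ => this a), Finset.sum_ite_eq']
      simp [hm]

variable {B : Type} [Fintype B] [DecidableEq B]

theorem spread_graph [CharP F 2] (g : ℤ) (hg : 2 ≤ g) (hF : (Fintype.card F : ℤ) = g ^ 2)
    (hB : (Fintype.card B : ℤ) = 4 * g ^ 2)
    (W : Option F → B → B → ℤ) (hW : ∀ i b c, W i b c = 1 ∨ W i b c = -1)
    (hsym : ∀ i b c, W i b c = W i c b)
    (hmul : ∀ i b d, ∑ c, W i b c * W i c d = if b = d then 4 * g ^ 2 else 0)
    (hsum : ∀ b c, ∑ i, W i b c = -1)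
    (hdiag : ∀ b, W none b b = 1)
    (h : B → B → ℤ) (hh : ∀ u b, h u b = 1 ∨ h u b = -1) (u0 c1 : B)
    (hu0 : ∀ b, h u0 b = 1) (hc1 : ∀ u, h u c1 = 1)
    (hhr : ∀ u v, ∑ b, h u b * h v b = if u = v then 4 * g ^ 2 else 0)
    (hhc : ∀ b c, ∑ u, h u b * h u c = if b = c then 4 * g ^ 2 else 0) :
    ∃ G : SimpleGraph (Fin (Fintype.card ((B × (F × F)) ⊕ {u : B // u ≠ u0}))),
      ∃ inst : DecidableRel G.Adj,
      G.Connected ∧
      (Finset.univ.image (fun v => G.degree v)).card = 3 ∧
      (G.adjMatrix ℝ).charpoly.roots.toFinset.card = 3 := by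
  classical
  have h2 : ∀ x : F × F, x + x = 0 := by
    intro x
    exact Prod.ext (CharTwo.add_self_eq_zero x.1) (CharTwo.add_self_eq_zero x.2)
  set t : F × F := (0, 1) with ht
  have hkt : ∀ i, kap i t = if i = none then 1 else 0 := by
    intro i
    rcases i with _ | m <;> simp [kap, ht]
  -- convolution with the translation
  have hconv : ∀ i j (x z : F × F), ∑ y, kap i (x + y + t) * kap j (y + z + t) =
      if i = j then g ^ 2 * kap i (x + z) else 1 := by
    intro i j x z
    have e : ∑ y, kap i (x + y + t) * kap j (y + z + t) = ∑ y, kap i y * kap j (y + (x + z)) := by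
      rw [← Equiv.sum_comp (Equiv.addRight (x + t))
        (fun y => kap i y * kap j (y + (x + z)))]
      refine Finset.sum_congr rfl fun y _ => ?_
      simp only [Equiv.coe_addRight]
      congr 2
      · abel
      · have : y + (x + t) + (x + z) = y + z + t + (x + x) := by abel
        rw [this, h2, add_zero]
    rw [e, kap_conv, hF]
  refine core g hg (fun b x c y => ∑ i, W i b c * kap i (x + y + t)) ?_ ?_ ?_ ?_ ?_ h hh u0 c1
    hu0 hc1 hhr hhc hB ?_
  · intro b x c y
    generalize x + y + t = w
    by_cases hw : w = 0
    · right
      rw [← hsum b c]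
      refine Finset.sum_congr rfl fun i _ => ?_
      rw [hw]
      have := kap_zero i
      rw [show ((0 : F × F)) = (0, 0) from rfl, this, mul_one]
    · rw [Fintype.sum_option]
      by_cases h1 : w.1 = 0
      · have h2' : w.2 ≠ 0 := fun h => hw (Prod.ext h1 h)
        have : W none b c * kap none w + ∑ i, W (some i) b c * kap (some i) w = W none b c := by
          simp [kap, h1, h2']
        rw [this]
        exact hW _ _ _
      · have : ∀ m : F, W (some m) b c * kap (some m) w =
            if w.2 / w.1 = m then W (some m) b c else 0 := by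
          intro m
          by_cases hm : w.2 / w.1 = m
          · rw [if_pos hm]
            rw [div_eq_iff h1] at hm
            simp only [kap]
            rw [if_pos hm, mul_one]
          · rw [if_neg hm]
            rw [div_eq_iff h1] at hm
            simp only [kap]
            rw [if_neg hm, mul_zero]
        rw [Finset.sum_congr rfl (fun m _ => this m), Finset.sum_ite_eq]
        simp only [kap, h1, if_false, mul_zero, zero_add, Finset.mem_univ, if_true]
        exact hW _ _ _
  · intro b x c y
    refine Finset.sum_congr rfl fun i _ => ?_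
    rw [hsym i b c, add_comm x y]
  · intro b x
    rw [h2 x, zero_add]
    have : ∀ i, W i b b * kap i t = if i = none then W i b b else 0 := by
      intro i
      rw [hkt]
      split_ifs <;> simp
    rw [Finset.sum_congr rfl (fun i _ => this i), Finset.sum_ite_eq']
    simp [hdiag]
  · intro b x c
    rw [Finset.sum_comm]
    have : ∀ i, ∑ y, W i b c * kap i (x + y + t) = W i b c * g ^ 2 := by
      intro i
      rw [← Finset.mul_sum]
      congr 1
      rw [← hF, ← kap_total i, ← Equiv.sum_comp (Equiv.addRight (x + t)) (fun y => kap i y)]
      refine Finset.sum_congr rfl fun y _ => ?_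
      simp only [Equiv.coe_addRight]
      congr 1
      abel
    rw [Finset.sum_congr rfl (fun i _ => this i), ← Finset.sum_mul, hsum]
    ring
  · intro b x d z
    have e1 : ∑ c, ∑ y, (∑ i, W i b c * kap i (x + y + t)) * (∑ j, W j c d * kap j (y + z + t)) =
        ∑ c, ∑ i, ∑ j, (W i b c * W j c d) * (if i = j then g ^ 2 * kap i (x + z) else 1) := by
      refine Finset.sum_congr rfl fun c _ => ?_
      simp_rw [Finset.sum_mul_sum]
      rw [Finset.sum_comm]
      refine Finset.sum_congr rfl fun i _ => ?_
      rw [Finset.sum_comm]
      refine Finset.sum_congr rfl fun j _ => ?_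
      rw [← hconv i j x z, Finset.mul_sum]
      refine Finset.sum_congr rfl fun y _ => ?_
      ring
    rw [e1]
    have e2 : ∀ c, ∑ i, ∑ j, (W i b c * W j c d) * (if i = j then g ^ 2 * kap i (x + z) else 1) =
        1 + ∑ i, (W i b c * W i c d) * (g ^ 2 * kap i (x + z) - 1) := by
      intro c
      have e3 : ∀ i, ∑ j, (W i b c * W j c d) * (if i = j then g ^ 2 * kap i (x + z) else 1) =
          - W i b c + (W i b c * W i c d) * (g ^ 2 * kap i (x + z) - 1) := by
        intro i
        have e4 : ∀ j, (W i b c * W j c d) * (if i = j then g ^ 2 * kap i (x + z) else 1) =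
            W i b c * W j c d +
            (if i = j then (W i b c * W j c d) * (g ^ 2 * kap i (x + z) - 1) else 0) := by
          intro j
          split_ifs <;> ring
        rw [Finset.sum_congr rfl (fun j _ => e4 j), Finset.sum_add_distrib, ← Finset.mul_sum, hsum,
          Finset.sum_ite_eq]
        simp only [Finset.mem_univ, if_true]
        ring
      rw [Finset.sum_congr rfl (fun i _ => e3 i), Finset.sum_add_distrib, Finset.sum_neg_distrib,
        hsum]
      ring
    rw [Finset.sum_congr rfl (fun c _ => e2 c), Finset.sum_add_distrib, Finset.sum_comm]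
    have e5 : ∀ i, ∑ c, (W i b c * W i c d) * (g ^ 2 * kap i (x + z) - 1) =
        (if b = d then 4 * g ^ 2 else 0) * (g ^ 2 * kap i (x + z) - 1) := by
      intro i
      rw [← Finset.sum_mul, hmul]
    rw [Finset.sum_congr rfl (fun i _ => e5 i), ← Finset.mul_sum, Finset.sum_sub_distrib,
      ← Finset.mul_sum, kap_sum]
    have e6 : (x + z = 0) ↔ x = z := by
      constructor
      · intro h'
        have : x + z + z = z := by rw [h', zero_add]
        rw [add_assoc, h2, add_zero] at this
        exact this
      · intro h'
        rw [h', h2]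
    simp only [Finset.sum_const, Finset.card_univ, nsmul_eq_mul, mul_one, hB, Fintype.card_option]
    push_cast
    rw [hF]
    by_cases hbd : b = d
    · by_cases hxz : x = z
      · rw [if_pos hbd, if_pos (e6.mpr hxz), if_pos ⟨hbd, hxz⟩]
        ring
      · rw [if_pos hbd, if_neg (fun h' => hxz (e6.mp h')), if_neg (fun h' => hxz h'.2)]
        ring
    · have hn : ¬ (b = d ∧ x = z) := fun h' => hbd h'.1
      rw [if_neg hbd, if_neg hn]
      ring
  · rw [Fintype.card_prod]
    push_cast
    rw [hF]
    ring

end spread

end Pool.Agent.MP7c9306
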