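import Mathlib
import Pool.Agent.Lib.MP_7c9306_co.Base
import Pool.Agent.Lib.MP_7c9306_co.Spread

set_option autoImplicit false

namespace Pool.Agent.MP7c9306

open Finset

/-- `k`-fold Kronecker product. -/
def kron {k : ℕ} (f : Fin k → Fin 16 → Fin 16 → ℤ) (b c : Fin k → Fin 16) : ℤ :=
  ∏ j, f j (b j) (c j)

theorem kron_pm {k : ℕ} (f : Fin k → Fin 16 → Fin 16 → ℤ)
    (hf : ∀ j b c, f j b c = 1 ∨ f j b c = -1) (b c : Fin k → Fin 16) :
    kron f b c = 1 ∨ kron f b c = -1 := by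
  unfold kron
  refine Finset.prod_induction _ (fun z => z = 1 ∨ z = -1) ?_ (Or.inl rfl) (fun j _ => hf j _ _)
  rintro a b (rfl | rfl) (rfl | rfl) <;> simp

theorem kron_symm {k : ℕ} (f : Fin k → Fin 16 → Fin 16 → ℤ)
    (hf : ∀ j b c, f j b c = f j c b) (b c : Fin k → Fin 16) : kron f b c = kron f c b :=
  Finset.prod_congr rfl fun j _ => hf j _ _

theorem kron_mul {k : ℕ} (f : Fin k → Fin 16 → Fin 16 → ℤ)
    (hf : ∀ j b d, ∑ c, f j b c * f j c d = if b = d then 16 else 0) (b d : Fin k → Fin 16) :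
    ∑ c, kron f b c * kron f c d = if b = d then 16 ^ k else 0 := by
  have e1 : ∀ c : Fin k → Fin 16, kron f b c * kron f c d =
      ∏ j, (f j (b j) (c j) * f j (c j) (d j)) := by
    intro c
    unfold kron
    rw [← Finset.prod_mul_distrib]
  rw [Finset.sum_congr rfl (fun c _ => e1 c)]
  have e2 : ∑ c : Fin k → Fin 16, ∏ j, (f j (b j) (c j) * f j (c j) (d j)) =
      ∏ j, ∑ x : Fin 16, f j (b j) x * f j x (d j) := by
    rw [Finset.prod_univ_sum, Fintype.piFinset_univ]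
  rw [e2, Finset.prod_congr rfl (fun j _ => hf j (b j) (d j))]
  by_cases h : b = d
  · subst h
    simp
  · rw [if_neg h]
    obtain ⟨j, hj⟩ := Function.ne_iff.mp h
    exact Finset.prod_eq_zero (Finset.mem_univ j) (if_neg hj)

/-- The family of `7 ^ k` matrices. -/
def Wk (k : ℕ) (l : Fin k → Fin 7) (b c : Fin k → Fin 16) : ℤ :=
  (-1) ^ (k + 1) * kron (fun j => W7 (l j)) b c

theorem Wk_sum (k : ℕ) (b c : Fin k → Fin 16) : ∑ l, Wk k l b c = -1 := by
  unfold Wk
  rw [← Finset.mul_sum]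
  unfold kron
  have e2 : ∑ l : Fin k → Fin 7, ∏ j, W7 (l j) (b j) (c j) =
      ∏ j : Fin k, ∑ x : Fin 7, W7 x (b j) (c j) := by
    rw [Finset.prod_univ_sum, Fintype.piFinset_univ]
  rw [e2, Finset.prod_congr rfl (fun j _ => W7_sum (b j) (c j))]
  simp only [Finset.prod_const, Finset.card_univ, Fintype.card_fin]
  rw [← pow_add, show k + 1 + k = 2 * k + 1 by ring, pow_succ, pow_mul]
  norm_num

/-- The whole family of `7 ^ k + 2 p` matrices. -/
def Wall (k p : ℕ) : (Fin k → Fin 7) ⊕ (Fin p × Bool) → (Fin k → Fin 16) → (Fin k → Fin 16) → ℤ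
  | .inl l, b, c => Wk k l b c
  | .inr (_, true), b, c => kron (fun _ => S16) b c
  | .inr (_, false), b, c => - kron (fun _ => S16) b c

theorem Wall_pm (k p : ℕ) (i) (b c : Fin k → Fin 16) :
    Wall k p i b c = 1 ∨ Wall k p i b c = -1 := by
  rcases i with l | ⟨j, _ | _⟩
  · simp only [Wall, Wk]
    rcases kron_pm (fun j => W7 (l j)) (fun j => W7_pm (l j)) b c with h | h <;> rw [h] <;>
      rcases neg_one_pow_eq_or ℤ (k + 1) with h' | h' <;> rw [h'] <;> simp
  · simp only [Wall]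
    rcases kron_pm (fun _ => S16) (fun _ => S16_pm) b c with h | h <;> rw [h] <;> simp
  · simp only [Wall]
    exact kron_pm (fun _ => S16) (fun _ => S16_pm) b c

theorem Wall_symm (k p : ℕ) (i) (b c : Fin k → Fin 16) : Wall k p i b c = Wall k p i c b := by
  rcases i with l | ⟨j, _ | _⟩
  · simp only [Wall, Wk]
    rw [kron_symm _ (fun j => W7_symm (l j)) b c]
  · simp only [Wall]
    rw [kron_symm _ (fun _ => S16_symm) b c]
  · simp only [Wall]
    rw [kron_symm _ (fun _ => S16_symm) b c]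

theorem Wall_mul (k p : ℕ) (i) (b d : Fin k → Fin 16) :
    ∑ c, Wall k p i b c * Wall k p i c d = if b = d then 16 ^ k else 0 := by
  rcases i with l | ⟨j, _ | _⟩
  · rw [← kron_mul (fun j => W7 (l j)) (fun j => W7_mul (l j)) b d]
    refine Finset.sum_congr rfl fun c _ => ?_
    simp only [Wall, Wk]
    have : ((-1 : ℤ) ^ (k + 1)) * ((-1 : ℤ) ^ (k + 1)) = 1 := by
      rcases neg_one_pow_eq_or ℤ (k + 1) with h' | h' <;> rw [h'] <;> norm_num
    calc _ = (((-1 : ℤ) ^ (k + 1)) * ((-1 : ℤ) ^ (k + 1))) *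
          (kron (fun j => W7 (l j)) b c * kron (fun j => W7 (l j)) c d) := by ring
      _ = _ := by rw [this, one_mul]
  · rw [← kron_mul (fun _ => S16) (fun _ => S16_mul) b d]
    refine Finset.sum_congr rfl fun c _ => ?_
    simp only [Wall]
    ring
  · rw [← kron_mul (fun _ => S16) (fun _ => S16_mul) b d]
    refine Finset.sum_congr rfl fun c _ => ?_
    simp only [Wall]

theorem Wall_sum (k p : ℕ) (b c : Fin k → Fin 16) : ∑ i, Wall k p i b c = -1 := by
  rw [Fintype.sum_sum_type, Fintype.sum_prod_type]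
  simp only [Fintype.sum_bool, Wall]
  rw [Wk_sum]
  simp

theorem Wall_diag (k p : ℕ) (j : Fin p) (b : Fin k → Fin 16) : Wall k p (.inr (j, true)) b b = 1 := by
  simp only [Wall, kron]
  exact Finset.prod_eq_one fun j _ => S16_diag _

theorem seven_pow_lt (k : ℕ) : 7 ^ (k + 2) < 4 ^ (2 * (k + 2) - 1) := by
  have e : 4 ^ (2 * (k + 2) - 1) = 64 * 16 ^ k := by
    rw [show 2 * (k + 2) - 1 = 3 + 2 * k by omega, pow_add, pow_mul]
    norm_num
  rw [e, pow_add]
  have : 7 ^ k ≤ 16 ^ k := Nat.pow_le_pow_left (by norm_num) k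
  have h1 : 0 < 16 ^ k := by positivity
  omega

theorem family (k : ℕ) : ∃ n : ℕ, 4 ^ (2 * (k + 2)) ≤ n ∧ ∃ G : SimpleGraph (Fin n),
      ∃ inst : DecidableRel G.Adj,
      G.Connected ∧
      (Finset.univ.image (fun v => G.degree v)).card = 3 ∧
      (G.adjMatrix ℝ).charpoly.roots.toFinset.card = 3 := by
  classical
  haveI : Fact (Nat.Prime 2) := ⟨Nat.prime_two⟩
  set m := 2 * (k + 2) - 1 with hm
  have hm0 : m ≠ 0 := by omega
  let F := GaloisField 2 (2 * m)
  haveI : Fintype F := Fintype.ofFinite F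
  have hF : Fintype.card F = 4 ^ m := by
    have h1 := GaloisField.card 2 (2 * m) (by omega)
    rw [Nat.card_eq_fintype_card] at h1
    rw [h1, pow_mul]
    norm_num
  obtain ⟨p, hp⟩ : ∃ p, 4 ^ m + 1 = 7 ^ (k + 2) + 2 * (p + 1) := by
    have h1 := seven_pow_lt k
    have h2 : (4 ^ m) % 2 = 0 := by
      obtain ⟨r, hr⟩ := Nat.exists_eq_succ_of_ne_zero hm0
      rw [hr, Nat.pow_succ]
      omega
    have h3 : (7 ^ (k + 2)) % 2 = 1 := by
      rw [Nat.pow_mod]; norm_num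
    refine ⟨(4 ^ m + 1 - 7 ^ (k + 2)) / 2 - 1, ?_⟩
    rw [← hm] at h1
    omega
  let X := (Fin (k + 2) → Fin 7) ⊕ (Fin (p + 1) × Bool)
  have hX : Fintype.card (Option F) = Fintype.card X := by
    rw [Fintype.card_option, hF, hp, Fintype.card_sum, Fintype.card_prod, Fintype.card_pi,
      Fintype.card_bool, Fintype.card_fin]
    simp
    ring
  let e0 : Option F ≃ X := Fintype.equivOfCardEq hX
  let e : Option F ≃ X := e0.trans (Equiv.swap (e0 none) (Sum.inr (0, true)))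
  have he : e none = Sum.inr (0, true) := by
    simp [e]
  have hB : Fintype.card (Fin (k + 2) → Fin 16) = 4 * 4 ^ m := by
    rw [Fintype.card_pi]
    simp only [Fintype.card_fin, Finset.prod_const, Finset.card_univ]
    rw [show (16 : ℕ) = 4 ^ 2 by norm_num, ← pow_mul, hm, ← pow_succ']
    congr 1
  have hg2 : ((2 : ℤ) ^ m) ^ 2 = 4 ^ m := by
    rw [← pow_mul, mul_comm, pow_mul]; norm_num
  have h16 : (4 : ℤ) * ((2 : ℤ) ^ m) ^ 2 = 16 ^ (k + 2) := by
    rw [hg2, show (16 : ℤ) = 4 ^ 2 by norm_num, ← pow_mul, hm, ← pow_succ']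
    congr 1
  have hmain := spread_graph (F := F) (B := Fin (k + 2) → Fin 16) ((2 : ℤ) ^ m) ?_ ?_ ?_
    (fun i => Wall (k + 2) (p + 1) (e i)) (fun i b c => Wall_pm _ _ _ _ _)
    (fun i b c => Wall_symm _ _ _ _ _) ?_ ?_ ?_
    (kron (fun _ => H16)) (fun u b => kron_pm _ (fun _ => H16_pm) u b) 0 0 ?_ ?_ ?_ ?_
  · refine ⟨_, ?_, hmain⟩
    rw [Fintype.card_sum, Fintype.card_prod, Fintype.card_prod, hB, hF]
    have h1 : 1 ≤ 4 ^ m := Nat.one_le_pow _ _ (by norm_num)
    have h2 : 4 ^ (2 * (k + 2)) = 4 * 4 ^ m := by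
      rw [hm, ← pow_succ']
      congr 1
    rw [h2]
    calc 4 * 4 ^ m = 4 * 4 ^ m * (1 * 1) := by ring
      _ ≤ 4 * 4 ^ m * (4 ^ m * 4 ^ m) := Nat.mul_le_mul le_rfl (Nat.mul_le_mul h1 h1)
      _ ≤ _ := Nat.le_add_right _ _
  · calc (2 : ℤ) = 2 ^ 1 := by norm_num
      _ ≤ 2 ^ m := pow_le_pow_right₀ (by norm_num) (by omega)
  · rw [hF, hg2]; push_cast; rfl
  · rw [hB, hg2]; push_cast; rfl
  · intro i b d
    rw [h16]
    exact Wall_mul _ _ _ _ _
  · intro b c
    rw [← Wall_sum (k + 2) (p + 1) b c]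
    exact Equiv.sum_comp e (fun i => Wall (k + 2) (p + 1) i b c)
  · intro b
    rw [he]
    exact Wall_diag _ _ _ _
  · intro b
    exact Finset.prod_eq_one fun j _ => H16_zero _
  · intro u
    rw [kron_symm _ (fun _ => H16_symm)]
    exact Finset.prod_eq_one fun j _ => H16_zero _
  · intro u v
    rw [h16, ← kron_mul (fun _ => H16) (fun _ => H16_mul) u v]
    refine Finset.sum_congr rfl fun b _ => ?_
    rw [kron_symm _ (fun _ => H16_symm) v b]
  · intro u v
    rw [h16, ← kron_mul (fun _ => H16) (fun _ => H16_mul) u v]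
    refine Finset.sum_congr rfl fun b _ => ?_
    rw [kron_symm _ (fun _ => H16_symm) u b]

end Pool.Agent.MP7c9306
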